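import Pool.Agent.MQG.StmtsC

/-!
# Squad MQG (MP_a4f485_an), row TUN: uniqueness of the analytic extension
-/

set_option autoImplicit false

namespace Pool.Agent.MQG.H87

open Pool.Agent.MQG
open scoped InnerProductSpace InnerProduct Topology ComplexConjugate
open Complex Filter

theorem bdd_traj {α : Type} {V : ℝ → Op α} {f : ℂ → L2 α} (hV : IsGroup V) (hf : Traj V f)
    (r : ℝ) : ∃ B : ℝ, 0 ≤ B ∧ ∀ z : ℂ, |z.im| ≤ r → ‖f z‖ ≤ B := by
  have hc : ContinuousOn (fun y : ℝ => f (I * y)) (Set.Icc (-r) r) := by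
    refine Continuous.continuousOn ?_
    exact hf.1.continuous.comp (continuous_const.mul Complex.continuous_ofReal)
  obtain ⟨B, hB⟩ := isCompact_Icc.exists_bound_of_continuousOn hc
  refine ⟨max B 0, le_max_right _ _, fun z hz => ?_⟩
  have h1 : f z = V z.re (f (I * z.im)) := by
    rw [← hf.shift_real hV]
    congr 1
    rw [mul_comm]
    exact (Complex.re_add_im z).symm
  rw [h1, hV.norm_apply]
  exact (hB z.im (abs_le.1 hz)).trans (le_max_left _ _)

theorem tun : TunStmt := by
  intro ι V hV r a b hr ⟨F, hd, ⟨C₀, hC⟩, hre, hb⟩ f g hf hg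
  have hset : {z : ℂ | 0 < z.im ∧ z.im < r} = Complex.im ⁻¹' Set.Ioo 0 r := rfl
  have hcl : closure {z : ℂ | 0 < z.im ∧ z.im < r} = Complex.im ⁻¹' Set.Icc 0 r := by
    rw [hset, Complex.closure_preimage_im, closure_Ioo hr.ne]
  let Φ : ℂ → ℂ := fun z => ⟪f (-(conj z)), a (g (-z))⟫_ℂ
  have hΦ : Differentiable ℂ Φ := by
    have h1 : Differentiable ℂ (fun w => f (-w)) := hf.1.comp differentiable_neg
    have h2 : Differentiable ℂ (fun w => a (g (-w))) :=
      a.differentiable.comp (hg.1.comp differentiable_neg)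
    exact inner_differentiable h1 h2
  let D : ℂ → ℂ := fun z => ⟪f 0, F z (g 0)⟫_ℂ - Φ z
  have hD : DiffContOnCl ℂ D {z | 0 < z.im ∧ z.im < r} :=
    (hd (f 0) (g 0)).sub hΦ.diffContOnCl
  obtain ⟨Bf, hBf0, hBf⟩ := bdd_traj hV hf r
  obtain ⟨Bg, hBg0, hBg⟩ := bdd_traj hV hg r
  have hC0 : 0 ≤ C₀ := (norm_nonneg _).trans (hC 0 (by simp) (by simpa using hr.le))
  obtain ⟨M, hM0, hM⟩ : ∃ M : ℝ, 0 ≤ M ∧ ∀ z : ℂ, 0 ≤ z.im → z.im ≤ r → ‖D z‖ ≤ M := by
    refine ⟨‖f 0‖ * (C₀ * ‖g 0‖) + Bf * (‖a‖ * Bg), by positivity, fun z h0 h1 => ?_⟩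
    refine (norm_sub_le _ _).trans (add_le_add ?_ ?_)
    · refine (norm_inner_le_norm _ _).trans ?_
      refine mul_le_mul_of_nonneg_left ?_ (norm_nonneg _)
      refine ((F z).le_opNorm _).trans ?_
      exact mul_le_mul_of_nonneg_right (hC z h0 h1) (norm_nonneg _)
    · refine (norm_inner_le_norm _ _).trans ?_
      refine mul_le_mul ?_ ?_ (norm_nonneg _) hBf0
      · apply hBf
        have e : (-(conj z)).im = z.im := by simp
        rw [e, abs_of_nonneg h0]
        exact h1
      · refine (a.le_opNorm _).trans ?_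
        refine mul_le_mul_of_nonneg_left ?_ (norm_nonneg _)
        apply hBg
        have e : (-z).im = -z.im := by simp
        rw [e, abs_neg, abs_of_nonneg h0]
        exact h1
  have hD0 : ∀ t : ℝ, D t = 0 := by
    intro t
    have h1 : ⟪f 0, F t (g 0)⟫_ℂ = ⟪f (-(conj (t : ℂ))), a (g (-(t : ℂ)))⟫_ℂ := by
      rw [hre t, Complex.conj_ofReal]
      have e1 : (-(t : ℂ)) = ((-t : ℝ) : ℂ) := by push_cast; rfl
      rw [e1, hf.2 (-t), hg.2 (-t)]
      show ⟪f 0, V t (a (V (-t) (g 0)))⟫_ℂ = _
      rw [hV.inner_right]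
    show _ - Φ t = 0
    rw [h1]
    exact sub_self _
  -- zero in the open strip
  have hzero : ∀ z : ℂ, 0 ≤ z.im → z.im < r → D z = 0 := by
    intro z h0 h1
    have key : ∀ l : ℝ, ‖D z‖ ≤ M * Real.exp (l * (r - z.im)) := by
      intro l
      have hnorm : ∀ w : ℂ, ‖Complex.exp (-(I * l * w)) * D w‖ = Real.exp (l * w.im) * ‖D w‖ := by
        intro w
        rw [norm_mul, Complex.norm_exp]
        congr 2
        simp
      have hE : DiffContOnCl ℂ (fun w => Complex.exp (-(I * l * w)) * D w)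
          {z | 0 < z.im ∧ z.im < r} := by
        have h2 : Differentiable ℂ (fun w : ℂ => Complex.exp (-(I * l * w))) := by
          fun_prop
        exact h2.diffContOnCl.smul hD
      have h3 := three_lines (f := fun w => Complex.exp (-(I * l * w)) * D w) (s := r)
        (C := Real.exp (|l| * r) * M) (M := Real.exp (l * r) * M) hr hE
        (fun w hw0 hw1 => by
          rw [hnorm]
          refine mul_le_mul ?_ (hM w hw0 hw1) (norm_nonneg _) (Real.exp_pos _).le
          rw [Real.exp_le_exp]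
          calc l * w.im ≤ |l| * w.im := mul_le_mul_of_nonneg_right (le_abs_self l) hw0
            _ ≤ |l| * r := mul_le_mul_of_nonneg_left hw1 (abs_nonneg l))
        (fun t => by
          rw [hD0 t, mul_zero, norm_zero]
          positivity)
        (fun t => by
          rw [hnorm]
          have e : ((t : ℂ) + r * I).im = r := by simp
          rw [e]
          refine mul_le_mul_of_nonneg_left ?_ (Real.exp_pos _).le
          apply hM
          · rw [e]; exact hr.le
          · rw [e]) h0 h1.le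
      rw [hnorm] at h3
      have h4 : Real.exp (l * r) = Real.exp (l * z.im) * Real.exp (l * (r - z.im)) := by
        rw [← Real.exp_add]
        congr 1
        ring
      rw [h4] at h3
      have h5 : Real.exp (l * z.im) * ‖D z‖ ≤
          Real.exp (l * z.im) * (M * Real.exp (l * (r - z.im))) := by
        calc _ ≤ _ := h3
          _ = _ := by ring
      exact le_of_mul_le_mul_left h5 (Real.exp_pos _)
    have hlim : Tendsto (fun l : ℝ => M * Real.exp (l * (r - z.im))) atBot (𝓝 (M * 0)) := by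
      refine Tendsto.const_mul M ?_
      exact Real.tendsto_exp_atBot.comp (tendsto_id.atBot_mul_const (sub_pos.2 h1))
    rw [mul_zero] at hlim
    have h6 : ‖D z‖ ≤ 0 := ge_of_tendsto' hlim key
    exact norm_le_zero_iff.1 h6
  -- continuity
  have hcont : ContinuousOn (fun s : ℝ => D (I * s)) (Set.Icc 0 r) := by
    have h1 := hD.continuousOn
    rw [hcl] at h1
    refine h1.comp (Continuous.continuousOn (by fun_prop)) ?_
    intro s hs
    show (I * (s : ℂ)).im ∈ Set.Icc 0 r
    simpa using hs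
  have hfin : Set.EqOn (fun s : ℝ => D (I * s)) (fun _ => 0) (Set.Icc 0 r) := by
    refine Set.EqOn.of_subset_closure (s := Set.Ioo 0 r) ?_ hcont continuousOn_const
      Set.Ioo_subset_Icc_self ?_
    · intro s hs
      show D (I * s) = 0
      apply hzero
      · simpa using hs.1.le
      · simpa using hs.2
    · rw [closure_Ioo hr.ne]
  have hlast := hfin (Set.right_mem_Icc.2 hr.le)
  have h7 : ⟪f 0, F (I * r) (g 0)⟫_ℂ - ⟪f (-(conj (I * (r : ℂ)))), a (g (-(I * (r : ℂ))))⟫_ℂ = 0 :=
    hlast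
  rw [hb] at h7
  have e : -(conj (I * (r : ℂ))) = I * r := by
    simp
  rw [e] at h7
  exact sub_eq_zero.1 h7

end Pool.Agent.MQG.H87
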